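import Pool.Agent.TetraPack.Global

/-!
# An explicit upper bound for the packing density of the regular tetrahedron
-/

namespace Pool.Agent.Results.MP_f0daa1_co.DensityUpperBound

open MeasureTheory Set Filter

/-- Every packing of three-space by regular tetrahedra with edges of length one (convex hulls of
four points with mutual distances one, interiors pairwise disjoint) has density at most
`1 - 3.2 / 10 ^ 16`, where the density is the upper limit, as `r` tends to infinity, of the
sum of the volumes of the parts of the members in the closed ball of radius `r` about the origin,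
divided by the volume of this ball. -/
theorem result {ι : Type*} (K : ι → Set (EuclideanSpace ℝ (Fin 3)))
    (hK : ∀ i, ∃ v : Fin 4 → EuclideanSpace ℝ (Fin 3),
      (∀ j k, j ≠ k → dist (v j) (v k) = 1) ∧ K i = convexHull ℝ (range v))
    (hdisj : ∀ i j, i ≠ j → Disjoint (interior (K i)) (interior (K j))) :
    limsup (fun r : ℝ =>
        (∑' i, volume (K i ∩ Metric.closedBall (0 : EuclideanSpace ℝ (Fin 3)) r)) /
          volume (Metric.closedBall (0 : EuclideanSpace ℝ (Fin 3)) r)) atTop ≤
      ENNReal.ofReal (1 - 3.2 / 10 ^ 16) :=
  Pool.Agent.TetraPack.Pack.density ⟨hK, hdisj⟩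

end Pool.Agent.Results.MP_f0daa1_co.DensityUpperBound
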